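import Pool.Agent.Helper19.Un.D4Stmts

/-!
# Module LOWX: the lower bound in a Delaunay cell
-/

set_option autoImplicit false

namespace Pool.Agent.Helper19.Un

theorem lowx_r1 (y Q A : ℝ) (h1 : 1 ≤ y) (h2 : y ≤ 13 / 10) (hQ0 : 0 ≤ Q) (hQ : Q ≤ y - 1)
    (hA : 2 * Q ≤ A * (Q + y - 1))
    (hi : 8 * (y * (268 / 100 - 3 / 4 * (1 + Q + y)) - 1) < (271 / 100 - 6 / 5 * y) / (7 / 5))
    (hii : 4 * (y * (268 / 100 - 3 / 4 * (1 + Q + y)) - 1) + 3 / 2 * y * A <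
      (271 / 100 - 6 / 5 * y) / (7 / 5)) : False := by
  have hs : 0 ≤ Q + y - 1 := by linarith
  have e1 := mul_nonneg hs (sub_nonneg.2 hii.le)
  have e2 : 0 ≤ y * (A * (Q + y - 1) - 2 * Q) := mul_nonneg (by linarith) (by linarith)
  nlinarith [mul_nonneg hQ0 (sub_nonneg.2 h1), mul_nonneg hQ0 (sub_nonneg.2 h2),
    mul_nonneg hQ0 (sub_nonneg.2 hQ), mul_nonneg (sub_nonneg.2 h1) (sub_nonneg.2 h2),
    mul_nonneg (sub_nonneg.2 h1) (sub_nonneg.2 hQ)]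

theorem lowx_r2 (y Q A : ℝ) (h1 : 13 / 10 ≤ y) (h2 : y ≤ 3 / 2) (hQ0 : 0 ≤ Q) (hQ : Q ≤ y - 1)
    (hA : 2 * Q ≤ A * (Q + y - 1))
    (hi : 8 * (y * (209 / 100 - 1 / 2 * (1 + Q + y)) - 1) < (271 / 100 - 6 / 5 * y) / (7 / 5))
    (hii : 4 * (y * (209 / 100 - 1 / 2 * (1 + Q + y)) - 1) + y * A <
      (271 / 100 - 6 / 5 * y) / (7 / 5)) : False := by
  have hs : 0 ≤ Q + y - 1 := by linarith
  have e1 := mul_nonneg hs (sub_nonneg.2 hii.le)
  have e2 : 0 ≤ y * (A * (Q + y - 1) - 2 * Q) := mul_nonneg (by linarith) (by linarith)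
  nlinarith [mul_nonneg hQ0 (sub_nonneg.2 h1), mul_nonneg hQ0 (sub_nonneg.2 h2),
    mul_nonneg hQ0 (sub_nonneg.2 hQ), mul_nonneg (sub_nonneg.2 h1) (sub_nonneg.2 h2),
    mul_nonneg (sub_nonneg.2 h1) (sub_nonneg.2 hQ)]

theorem lowx_r3 (y Q m : ℝ) (h1 : 7 / 4 ≤ y) (h2 : y ≤ 226 / 100) (hQ : Q ≤ m)
    (hi : 8 * (y * (209 / 100 - 1 / 2 * (1 + Q + y)) - 1) < (271 / 100 - 6 / 5 * y) / (7 / 5))
    (hii : (y * (209 / 100 - 1 / 2 * (1 + Q + y)) - 1) + y * m <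
      (271 / 100 - 6 / 5 * y) / (7 / 5)) : False := by
  have e1 : 0 ≤ y * (m - Q) := mul_nonneg (by linarith) (by linarith)
  nlinarith [mul_nonneg (sub_nonneg.2 h1) (sub_nonneg.2 h2)]

theorem lowx_r4 (y Q A m : ℝ) (h1 : 3 / 2 ≤ y) (h2 : y ≤ 7 / 4) (hQ0 : 0 ≤ Q) (hm : 0 ≤ m)
    (hA1 : A ≤ 1) (hQA : Q ≤ m * A) (hQ : Q ≤ y - 1)
    (hi : 8 * (y * (209 / 100 - 1 / 2 * (1 + Q + y)) - 1) < (271 / 100 - 6 / 5 * y) / (7 / 5))
    (hii : 4 * (y * (209 / 100 - 1 / 2 * (1 + Q + y)) - 1) + y * A <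
      (271 / 100 - 6 / 5 * y) / (7 / 5))
    (hiii : (y * (209 / 100 - 1 / 2 * (1 + Q + y)) - 1) + y * m <
      (271 / 100 - 6 / 5 * y) / (7 / 5)) : False := by
  have hQm : Q ≤ m := by nlinarith
  have e1 := mul_nonneg hm (sub_nonneg.2 hii.le)
  have e2 : 0 ≤ y * (m - Q) := mul_nonneg (by linarith) (by linarith)
  have e3 : 0 ≤ y * (m * A - Q) := mul_nonneg (by linarith) (by linarith)
  nlinarith [mul_nonneg (sub_nonneg.2 h1) (sub_nonneg.2 h2), mul_nonneg hQ0 (sub_nonneg.2 h1),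
    mul_nonneg hQ0 (sub_nonneg.2 h2), mul_nonneg hm (sub_nonneg.2 h1),
    mul_nonneg hm (sub_nonneg.2 h2)]

theorem lowx_lin1 (y t : ℝ) (hy : 0 ≤ y) (ht : 0 ≤ t) :
    y * (268 / 100 - 3 / 4 * t) - 1 ≤ 96 / 5 * y / (3 * t ^ 2 + 4) - 1 := by
  have h1 : 0 < 3 * t ^ 2 + 4 := by positivity
  have h2 : y * (268 / 100 - 3 / 4 * t) ≤ 96 / 5 * y / (3 * t ^ 2 + 4) := by
    rw [le_div_iff₀ h1]
    have h3 : (268 / 100 - 3 / 4 * t) * (3 * t ^ 2 + 4) ≤ 96 / 5 := by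
      nlinarith [mul_nonneg ht (sq_nonneg (t - 218 / 100)), sq_nonneg (t - 218 / 100)]
    nlinarith [mul_nonneg hy (sub_nonneg.2 h3)]
  linarith

theorem lowx_lin2 (y t : ℝ) (hy : 0 ≤ y) (ht : 0 ≤ t) :
    y * (209 / 100 - 1 / 2 * t) - 1 ≤ 96 / 5 * y / (3 * t ^ 2 + 4) - 1 := by
  have h1 : 0 < 3 * t ^ 2 + 4 := by positivity
  have h2 : y * (209 / 100 - 1 / 2 * t) ≤ 96 / 5 * y / (3 * t ^ 2 + 4) := by
    rw [le_div_iff₀ h1]
    have h3 : (209 / 100 - 1 / 2 * t) * (3 * t ^ 2 + 4) ≤ 96 / 5 := by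
      nlinarith [mul_nonneg ht (sq_nonneg (t - 262 / 100)), sq_nonneg (t - 262 / 100)]
    nlinarith [mul_nonneg hy (sub_nonneg.2 h3)]
  linarith

theorem lowx_G (a b y s x u v : ℝ)
    (hu : y * (a - b * (s - 2 * x)) - 1 ≤ u) (hv : y * (a - b * (s + 2 * x)) - 1 ≤ v) :
    7 / 5 * (2 * (y * (a - b * s) - 1)) ≤ 7 / 5 * max 0 u + 7 / 5 * max 0 v ∧
    7 / 5 * ((y * (a - b * s) - 1) + 2 * b * y * |x|) ≤ 7 / 5 * max 0 u + 7 / 5 * max 0 v := by
  have h1 := le_max_left 0 u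
  have h2 := le_max_right 0 u
  have h3 := le_max_left 0 v
  have h4 := le_max_right 0 v
  constructor
  · linarith
  · rcases abs_cases x with ⟨h5, _⟩ | ⟨h5, _⟩
    · rw [h5]
      linarith
    · rw [h5]
      linarith

theorem st_LOWX : ST_LOWX := by
  intro y x hy1 hy2 hx hc
  obtain ⟨Q, hQdef⟩ : ∃ Q, Q = ∑ j, x j ^ 2 := ⟨_, rfl⟩
  obtain ⟨A, hAdef⟩ : ∃ A, A = ∑ i, |x i| := ⟨_, rfl⟩
  rw [← hQdef] at hc ⊢
  rw [← hAdef] at hx
  obtain ⟨i0, _, hi0⟩ := Finset.exists_max_image (Finset.univ : Finset (Fin 4)) (fun i => |x i|)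
    Finset.univ_nonempty
  have hQ0 : 0 ≤ Q := by
    rw [hQdef]
    exact Finset.sum_nonneg fun i _ => sq_nonneg _
  have hm0 : 0 ≤ |x i0| := abs_nonneg _
  have hQA : Q ≤ |x i0| * A := by
    rw [hQdef, hAdef, Finset.mul_sum]
    refine Finset.sum_le_sum fun i hi => ?_
    have h1 := hi0 i hi
    have h2 := abs_nonneg (x i)
    rw [← sq_abs, pow_two]
    exact mul_le_mul_of_nonneg_right h1 h2
  have hm1 : 2 * |x i0| ≤ Q + y - 1 := by
    have := hc i0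
    linarith
  have hA0 : 0 ≤ A := by
    rw [hAdef]
    exact Finset.sum_nonneg fun i _ => abs_nonneg _
  have hQm : Q ≤ |x i0| := by nlinarith
  have hQy : Q ≤ y - 1 := by linarith
  have hQA2 : 2 * Q ≤ A * (Q + y - 1) := by
    have := mul_le_mul_of_nonneg_left hm1 hA0
    nlinarith
  have ht1 : ∀ i, 0 ≤ 1 + Q - 2 * x i + y := by
    intro i
    have h1 := hc i
    have h2 := le_abs_self (x i)
    linarith
  have ht2 : ∀ i, 0 ≤ 1 + Q + 2 * x i + y := by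
    intro i
    have h1 := hc i
    have h2 := neg_abs_le (x i)
    linarith
  have hy0 : 0 ≤ y := by linarith
  obtain ⟨G, hGdef⟩ : ∃ G : Fin 4 → ℝ, G = fun i => 7 / 5 * max 0 (96 / 5 * y /
      (3 * (1 + Q - 2 * x i + y) ^ 2 + 4) - 1)
    + 7 / 5 * max 0 (96 / 5 * y / (3 * (1 + Q + 2 * x i + y) ^ 2 + 4) - 1) := ⟨_, rfl⟩
  have hG0 : ∀ i, 0 ≤ G i := by
    intro i
    rw [hGdef]
    have h1 := le_max_left 0 (96 / 5 * y / (3 * (1 + Q - 2 * x i + y) ^ 2 + 4) - 1)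
    have h2 := le_max_left 0 (96 / 5 * y / (3 * (1 + Q + 2 * x i + y) ^ 2 + 4) - 1)
    show 0 ≤ 7 / 5 * max 0 (96 / 5 * y / (3 * (1 + Q - 2 * x i + y) ^ 2 + 4) - 1) +
      7 / 5 * max 0 (96 / 5 * y / (3 * (1 + Q + 2 * x i + y) ^ 2 + 4) - 1)
    linarith
  have hG1 : ∀ i, 7 / 5 * (2 * (y * (268 / 100 - 3 / 4 * (1 + Q + y)) - 1)) ≤ G i ∧
      7 / 5 * ((y * (268 / 100 - 3 / 4 * (1 + Q + y)) - 1) + 2 * (3 / 4) * y * |x i|) ≤ G i := by
    intro i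
    rw [hGdef]
    refine lowx_G (268 / 100) (3 / 4) y (1 + Q + y) (x i) _ _ ?_ ?_
    · rw [show 1 + Q + y - 2 * x i = 1 + Q - 2 * x i + y by ring]
      exact lowx_lin1 y _ hy0 (ht1 i)
    · rw [show 1 + Q + y + 2 * x i = 1 + Q + 2 * x i + y by ring]
      exact lowx_lin1 y _ hy0 (ht2 i)
  have hG2 : ∀ i, 7 / 5 * (2 * (y * (209 / 100 - 1 / 2 * (1 + Q + y)) - 1)) ≤ G i ∧
      7 / 5 * ((y * (209 / 100 - 1 / 2 * (1 + Q + y)) - 1) + 2 * (1 / 2) * y * |x i|) ≤ G i := by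
    intro i
    rw [hGdef]
    refine lowx_G (209 / 100) (1 / 2) y (1 + Q + y) (x i) _ _ ?_ ?_
    · rw [show 1 + Q + y - 2 * x i = 1 + Q - 2 * x i + y by ring]
      exact lowx_lin2 y _ hy0 (ht1 i)
    · rw [show 1 + Q + y + 2 * x i = 1 + Q + 2 * x i + y by ring]
      exact lowx_lin2 y _ hy0 (ht2 i)
  have hgoal : 171 / 100 ≤ (6 / 5 * y - 1) + ∑ i, G i := by
    have hS0 : 0 ≤ ∑ i, G i := Finset.sum_nonneg fun i _ => hG0 i
    have hsing : ∀ i, G i ≤ ∑ i, G i := fun i =>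
      Finset.single_le_sum (fun j _ => hG0 j) (Finset.mem_univ i)
    have hA4 : A = |x 0| + |x 1| + |x 2| + |x 3| := by
      rw [hAdef, Fin.sum_univ_four]
    have hG4 : ∑ i, G i = G 0 + G 1 + G 2 + G 3 := Fin.sum_univ_four _
    by_contra hcon
    push Not at hcon
    have hT : ∑ i, G i < 271 / 100 - 6 / 5 * y := by linarith
    have hY : y < 226 / 100 := by linarith
    have e57 : (271 / 100 - 6 / 5 * y) / (7 / 5) = 5 / 7 * (271 / 100 - 6 / 5 * y) := by ring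
    rcases le_or_gt y (13 / 10) with c1 | c1
    · refine lowx_r1 y Q A hy1 c1 hQ0 hQy hQA2 ?_ ?_
      · rw [e57]
        have a0 := (hG1 0).1
        have a1 := (hG1 1).1
        have a2 := (hG1 2).1
        have a3 := (hG1 3).1
        linarith
      · rw [e57]
        have a0 := (hG1 0).2
        have a1 := (hG1 1).2
        have a2 := (hG1 2).2
        have a3 := (hG1 3).2
        have a4 : 3 / 2 * y * A = 2 * (3 / 4) * y * |x 0| + 2 * (3 / 4) * y * |x 1| +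
          2 * (3 / 4) * y * |x 2| + 2 * (3 / 4) * y * |x 3| := by rw [hA4]; ring
        linarith
    · have hi : 8 * (y * (209 / 100 - 1 / 2 * (1 + Q + y)) - 1) <
          (271 / 100 - 6 / 5 * y) / (7 / 5) := by
        rw [e57]
        have a0 := (hG2 0).1
        have a1 := (hG2 1).1
        have a2 := (hG2 2).1
        have a3 := (hG2 3).1
        linarith
      have hii : 4 * (y * (209 / 100 - 1 / 2 * (1 + Q + y)) - 1) + y * A <
          (271 / 100 - 6 / 5 * y) / (7 / 5) := by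
        rw [e57]
        have a0 := (hG2 0).2
        have a1 := (hG2 1).2
        have a2 := (hG2 2).2
        have a3 := (hG2 3).2
        have a4 : y * A = 2 * (1 / 2) * y * |x 0| + 2 * (1 / 2) * y * |x 1| +
          2 * (1 / 2) * y * |x 2| + 2 * (1 / 2) * y * |x 3| := by rw [hA4]; ring
        linarith
      have hiii : (y * (209 / 100 - 1 / 2 * (1 + Q + y)) - 1) + y * |x i0| <
          (271 / 100 - 6 / 5 * y) / (7 / 5) := by
        rw [e57]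
        have a0 := (hG2 i0).2
        have a1 := hsing i0
        have a4 : y * |x i0| = 2 * (1 / 2) * y * |x i0| := by ring
        linarith
      rcases le_or_gt y (3 / 2) with c2 | c2
      · exact lowx_r2 y Q A c1.le c2 hQ0 hQy hQA2 hi hii
      · rcases le_or_gt y (7 / 4) with c3 | c3
        · exact lowx_r4 y Q A _ c2.le c3 hQ0 hm0 hx hQA hQy hi hii hiii
        · exact lowx_r3 y Q _ c3.le hY.le hQm hi hiii
  rw [hGdef] at hgoal
  exact hgoal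

end Pool.Agent.Helper19.Un
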