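import Pool.Agent.Helper56.Un.E8Stmts

set_option autoImplicit false

/-!
# Barycentric weights on the Delaunay cells of `E₈`
-/

namespace Pool.Agent.Helper19.Un

/-- transport from a general finite index type to `Fin n` -/
theorem ebar_fin {ι : Type} [Fintype ι] (z : Fin 8 → ℝ) (v : ι → Fin 8 → ℤ) (lam : ι → ℝ)
    (s t σ : ℝ) (hv : Function.Injective v) (hG : ∀ j, GA (v j)) (h0 : ∀ j, 0 ≤ lam j)
    (h1 : ∑ j, lam j = 1) (hs : 0 ≤ s) (hσ : 0 ≤ σ) (hσ1 : σ ≤ 1) (hst : s ≤ σ * t)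
    (hd : ∑ j, lam j * sq8 z (v j) = 1 - s)
    (hd2 : ∑ j, lam j * sq8 z (v j) ^ 2 ≤
      (1 + s) ^ 2 - 4 * s * (1 + s) + 4 * t * s + (1 - σ) * s / 2)
    (hl : ∑ j, lam j ^ 2 ≤ s + (1 - σ ^ 2) / 16) (hj : ∃ j, sq8 z (v j) = 1 + s - 2 * t) :
    ∃ (n : ℕ) (v : Fin n → Fin 8 → ℤ) (lam : Fin n → ℝ)
      (s t σ : ℝ), Function.Injective v ∧ (∀ j, GA (v j)) ∧ (∀ j, 0 ≤ lam j) ∧ ∑ j, lam j = 1 ∧
      0 ≤ s ∧ 0 ≤ σ ∧ σ ≤ 1 ∧ s ≤ σ * t ∧ ∑ j, lam j * sq8 z (v j) = 1 - s ∧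
      ∑ j, lam j * sq8 z (v j) ^ 2 ≤
        (1 + s) ^ 2 - 4 * s * (1 + s) + 4 * t * s + (1 - σ) * s / 2 ∧
      ∑ j, lam j ^ 2 ≤ s + (1 - σ ^ 2) / 16 ∧ ∃ j, sq8 z (v j) = 1 + s - 2 * t := by
  obtain ⟨j, hj⟩ := hj
  have e := (Fintype.equivFin ι).symm
  refine ⟨Fintype.card ι, fun k => v (e k), fun k => lam (e k), s, t, σ,
    fun a b hab => e.injective (hv hab), fun k => hG _, fun k => h0 _, ?_, hs, hσ, hσ1, hst,
    ?_, ?_, ?_, e.symm j, ?_⟩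
  · rw [e.sum_comp (fun i => lam i)]
    exact h1
  · rw [e.sum_comp (fun i => lam i * sq8 z (v i))]
    exact hd
  · rw [e.sum_comp (fun i => lam i * sq8 z (v i) ^ 2)]
    exact hd2
  · rw [e.sum_comp (fun i => lam i ^ 2)]
    exact hl
  · beta_reduce
    rw [e.apply_symm_apply]
    exact hj

/-- the largest value of a function on `Fin (n + 1)` -/
theorem ebar_max {n : ℕ} (f : Fin (n + 1) → ℝ) : ∃ i, ∀ j, f j ≤ f i := by
  obtain ⟨i, _, hi⟩ := Finset.exists_max_image Finset.univ f Finset.univ_nonempty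
  exact ⟨i, fun j => hi j (Finset.mem_univ j)⟩

theorem ebar_simplex (z : Fin 8 → ℝ) (v : Fin 9 → Fin 8 → ℤ) (l : Fin 9 → ℝ)
    (hv : Function.Injective v) (hG : ∀ j, GA (v j)) (h0 : ∀ j, 0 ≤ l j) (h1 : ∑ j, l j = 1)
    (hd : ∀ j, sq8 z (v j) = 1 + ∑ i, l i ^ 2 - 2 * l j) :
    ∃ (n : ℕ) (v : Fin n → Fin 8 → ℤ) (lam : Fin n → ℝ)
      (s t σ : ℝ), Function.Injective v ∧ (∀ j, GA (v j)) ∧ (∀ j, 0 ≤ lam j) ∧ ∑ j, lam j = 1 ∧
      0 ≤ s ∧ 0 ≤ σ ∧ σ ≤ 1 ∧ s ≤ σ * t ∧ ∑ j, lam j * sq8 z (v j) = 1 - s ∧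
      ∑ j, lam j * sq8 z (v j) ^ 2 ≤
        (1 + s) ^ 2 - 4 * s * (1 + s) + 4 * t * s + (1 - σ) * s / 2 ∧
      ∑ j, lam j ^ 2 ≤ s + (1 - σ ^ 2) / 16 ∧ ∃ j, sq8 z (v j) = 1 + s - 2 * t := by
  obtain ⟨i, hi⟩ := ebar_max l
  obtain ⟨s, hs⟩ : ∃ s, s = ∑ i, l i ^ 2 := ⟨_, rfl⟩
  rw [← hs] at hd
  have hst : s ≤ l i := by
    calc s = ∑ j, l j ^ 2 := hs
      _ ≤ ∑ j, l i * l j := by
          refine Finset.sum_le_sum fun j _ => ?_
          rw [pow_two]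
          exact mul_le_mul_of_nonneg_right (hi j) (h0 j)
      _ = l i := by rw [← Finset.mul_sum, h1, mul_one]
  have h3 : ∑ j, l j ^ 3 ≤ l i * s := by
    rw [hs, Finset.mul_sum]
    refine Finset.sum_le_sum fun j _ => ?_
    have : l j ^ 3 = l j * l j ^ 2 := by ring
    rw [this]
    exact mul_le_mul_of_nonneg_right (hi j) (sq_nonneg _)
  refine ebar_fin z v l s (l i) 1 hv hG h0 h1 (hs ▸ Finset.sum_nonneg fun _ _ => sq_nonneg _)
    zero_le_one le_rfl (by linarith) ?_ ?_ (by rw [← hs]; linarith) ⟨i, hd i⟩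
  · have : ∑ j, l j * sq8 z (v j) = ∑ j, ((1 + s) * l j - 2 * l j ^ 2) :=
      Finset.sum_congr rfl fun j _ => by rw [hd j]; ring
    rw [this, Finset.sum_sub_distrib, ← Finset.mul_sum, ← Finset.mul_sum, ← hs, h1]
    ring
  · have : ∑ j, l j * sq8 z (v j) ^ 2 =
        ∑ j, ((1 + s) ^ 2 * l j - 4 * (1 + s) * l j ^ 2 + 4 * l j ^ 3) :=
      Finset.sum_congr rfl fun j _ => by rw [hd j]; ring
    rw [this, Finset.sum_add_distrib, Finset.sum_sub_distrib, ← Finset.mul_sum,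
      ← Finset.mul_sum, ← Finset.mul_sum, ← hs, h1]
    linarith

theorem ebar_cross (z : Fin 8 → ℝ) (v : Fin 8 × Bool → Fin 8 → ℤ) (x : Fin 8 → ℝ)
    (hv : Function.Injective v) (hG : ∀ j, GA (v j)) (hx : ∑ i, |x i| ≤ 1)
    (hd : ∀ i, sq8 z (v (i, true)) = 1 + ∑ j, x j ^ 2 - 2 * x i ∧
      sq8 z (v (i, false)) = 1 + ∑ j, x j ^ 2 + 2 * x i) :
    ∃ (n : ℕ) (v : Fin n → Fin 8 → ℤ) (lam : Fin n → ℝ)
      (s t σ : ℝ), Function.Injective v ∧ (∀ j, GA (v j)) ∧ (∀ j, 0 ≤ lam j) ∧ ∑ j, lam j = 1 ∧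
      0 ≤ s ∧ 0 ≤ σ ∧ σ ≤ 1 ∧ s ≤ σ * t ∧ ∑ j, lam j * sq8 z (v j) = 1 - s ∧
      ∑ j, lam j * sq8 z (v j) ^ 2 ≤
        (1 + s) ^ 2 - 4 * s * (1 + s) + 4 * t * s + (1 - σ) * s / 2 ∧
      ∑ j, lam j ^ 2 ≤ s + (1 - σ ^ 2) / 16 ∧ ∃ j, sq8 z (v j) = 1 + s - 2 * t := by
  obtain ⟨i, hi⟩ := ebar_max (fun i => |x i|)
  obtain ⟨s, hs⟩ : ∃ s, s = ∑ i, x i ^ 2 := ⟨_, rfl⟩
  obtain ⟨σ, hσ⟩ : ∃ σ, σ = ∑ i, |x i| := ⟨_, rfl⟩
  obtain ⟨τ, hτ⟩ : ∃ τ, τ = (1 - σ) / 16 := ⟨_, rfl⟩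
  rw [← hs] at hd
  rw [← hσ] at hx
  have hτ0 : 0 ≤ τ := by rw [hτ]; linarith
  have hst : s ≤ σ * |x i| := by
    rw [hs, hσ, Finset.sum_mul]
    refine Finset.sum_le_sum fun j _ => ?_
    rw [← sq_abs, pow_two]
    exact mul_le_mul_of_nonneg_left (hi j) (abs_nonneg _)
  have h3 : ∑ j, |x j| ^ 3 ≤ |x i| * s := by
    rw [hs, Finset.mul_sum]
    refine Finset.sum_le_sum fun j _ => ?_
    have : |x j| ^ 3 = |x j| * x j ^ 2 := by rw [← sq_abs (x j)]; ring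
    rw [this]
    exact mul_le_mul_of_nonneg_right (hi j) (sq_nonneg _)
  -- positive and negative parts
  have hp : ∀ j, max 0 (x j) - max 0 (-x j) = x j ∧ max 0 (x j) + max 0 (-x j) = |x j| ∧
      max 0 (x j) ^ 2 + max 0 (-x j) ^ 2 = x j ^ 2 := by
    intro j
    rcases le_total 0 (x j) with h | h
    · rw [max_eq_right h, max_eq_left (by linarith : -x j ≤ 0), abs_of_nonneg h]
      refine ⟨by ring, by ring, by ring⟩
    · rw [max_eq_left h, max_eq_right (by linarith : 0 ≤ -x j), abs_of_nonpos h]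
      refine ⟨by ring, by ring, by ring⟩
  have hsum : ∀ F : Fin 8 × Bool → ℝ, ∑ j, F j = ∑ i, (F (i, true) + F (i, false)) := by
    intro F
    rw [Fintype.sum_prod_type]
    refine Finset.sum_congr rfl fun i _ => ?_
    rw [Fintype.sum_bool]
  obtain ⟨lam, hlt, hlf⟩ : ∃ lam : Fin 8 × Bool → ℝ, (∀ i, lam (i, true) = τ + max 0 (x i)) ∧
      ∀ i, lam (i, false) = τ + max 0 (-x i) :=
    ⟨fun j => τ + max 0 (if j.2 then x j.1 else -x j.1), fun i => by simp, fun i => by simp⟩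
  refine ebar_fin z v lam s |x i| σ hv hG ?_ ?_
    (hs ▸ Finset.sum_nonneg fun _ _ => sq_nonneg _)
    (hσ ▸ Finset.sum_nonneg fun _ _ => abs_nonneg _) hx hst ?_ ?_ ?_ ?_
  · rintro ⟨j, b⟩
    cases b
    · rw [hlf]
      exact add_nonneg hτ0 (le_max_left _ _)
    · rw [hlt]
      exact add_nonneg hτ0 (le_max_left _ _)
  · rw [hsum]
    have : ∑ i, (lam (i, true) + lam (i, false)) = ∑ i, (2 * τ + |x i|) :=
      Finset.sum_congr rfl fun j _ => by rw [hlt, hlf, ← (hp j).2.1]; ring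
    rw [this, Finset.sum_add_distrib, ← hσ]
    simp only [Finset.sum_const, Finset.card_univ, Fintype.card_fin, nsmul_eq_mul]
    rw [hτ]
    push_cast
    ring
  · rw [hsum]
    have : ∑ i, (lam (i, true) * sq8 z (v (i, true)) + lam (i, false) * sq8 z (v (i, false))) =
        ∑ i, (2 * τ * (1 + s) + (1 + s) * |x i| - 2 * x i ^ 2) :=
      Finset.sum_congr rfl fun j _ => by
        rw [hlt, hlf, (hd j).1, (hd j).2, ← (hp j).2.1]
        linear_combination (-2 * x j) * (hp j).1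
    rw [this]
    simp only [Finset.sum_add_distrib, Finset.sum_sub_distrib, ← Finset.mul_sum, ← hσ, ← hs,
      Finset.sum_const, Finset.card_univ, Fintype.card_fin, nsmul_eq_mul]
    rw [hτ]
    push_cast
    ring
  · rw [hsum]
    have : ∑ i, (lam (i, true) * sq8 z (v (i, true)) ^ 2 +
        lam (i, false) * sq8 z (v (i, false)) ^ 2) =
        ∑ i, (2 * τ * (1 + s) ^ 2 + 8 * τ * x i ^ 2 + (1 + s) ^ 2 * |x i| + 4 * |x i| ^ 3 -
          4 * (1 + s) * x i ^ 2) :=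
      Finset.sum_congr rfl fun j _ => by
        have e3 : |x j| ^ 3 = |x j| * x j ^ 2 := by rw [← sq_abs (x j)]; ring
        rw [hlt, hlf, (hd j).1, (hd j).2, e3]
        linear_combination (-4 * (1 + s) * x j) * (hp j).1 +
          ((1 + s) ^ 2 + 4 * x j ^ 2) * (hp j).2.1
    rw [this]
    simp only [Finset.sum_add_distrib, Finset.sum_sub_distrib, ← Finset.mul_sum, ← hσ, ← hs,
      Finset.sum_const, Finset.card_univ, Fintype.card_fin, nsmul_eq_mul]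
    rw [hτ]
    push_cast
    linarith
  · rw [hsum]
    have : ∑ i, (lam (i, true) ^ 2 + lam (i, false) ^ 2) =
        ∑ i, (2 * τ ^ 2 + 2 * τ * |x i| + x i ^ 2) :=
      Finset.sum_congr rfl fun j _ => by
        rw [hlt, hlf]
        linear_combination (2 * τ) * (hp j).2.1 + (hp j).2.2
    rw [this]
    simp only [Finset.sum_add_distrib, Finset.sum_sub_distrib, ← Finset.mul_sum, ← hσ, ← hs,
      Finset.sum_const, Finset.card_univ, Fintype.card_fin, nsmul_eq_mul]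
    rw [hτ]
    push_cast
    apply le_of_eq
    ring
  · rcases le_total 0 (x i) with h | h
    · refine ⟨(i, true), ?_⟩
      rw [(hd i).1, abs_of_nonneg h]
    · refine ⟨(i, false), ?_⟩
      rw [(hd i).2, abs_of_nonpos h]
      ring

theorem st_EBAR (hC : ST_ECELL) : ST_EBAR := by
  intro z
  rcases hC z with ⟨v, x, hv, hG, hx, hd⟩ | ⟨v, l, hv, hG, h0, h1, hd⟩
  · exact ebar_cross z v x hv hG hx hd
  · exact ebar_simplex z v l hv hG h0 h1 hd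

end Pool.Agent.Helper19.Un
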