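import Pool.Agent.Helper56.Un.E8Stmts

set_option autoImplicit false

/-!
# The cusps of type 3 (Eisenstein lattice over `E₈`)
-/

namespace Pool.Agent.Helper19.Un

theorem et3_sq8_nonneg (z : Fin 8 → ℝ) (A : Fin 8 → ℤ) : 0 ≤ sq8 z A :=
  Finset.sum_nonneg fun _ _ => sq_nonneg _

theorem et3_wt_nonneg (u : ℝ) : 0 ≤ wt u :=
  add_nonneg (le_max_left _ _) (le_max_left _ _)

theorem et3_wt_zero {u : ℝ} (h : 77 / 100 ≤ u) : wt u = 0 := by
  rw [wt, max_eq_left (by linarith), max_eq_left (by linarith), add_zero]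

theorem et3_lt_of_wt_pos {u : ℝ} (h : 0 < wt u) : u < 77 / 100 := by
  by_contra hc
  push Not at hc
  rw [et3_wt_zero hc] at h
  exact lt_irrefl _ h

/-- the weight is bounded by its two hinges -/
theorem et3_wt_le {u m : ℝ} (hu : u < 77 / 100) (h1 : 77 / 100 - u ≤ m)
    (h2 : 133 / 100 - 2 * u ≤ m) : wt u ≤ max 0 m := by
  rw [wt]
  refine le_trans ?_ (le_max_right 0 m)
  rw [max_eq_right (by linarith : (0 : ℝ) ≤ 77 / 100 - u)]
  rcases le_total 0 (14 / 25 - u) with h | h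
  · rw [max_eq_right h]
    linarith
  · rw [max_eq_left h]
    linarith

/-- bounds for the inverse height -/
theorem et3_u {H d V : ℝ} (hH : 3 / 2 ≤ H) (h : 1 / H ≤ u3 H d V) :
    1 ≤ H * u3 H d V ∧ (1 / 2 * d + H) ^ 2 + 3 * V ^ 2 = 4 * (H * u3 H d V) := by
  have h0 : 0 < H := by linarith
  constructor
  · rw [div_le_iff₀ h0] at h
    linarith
  · rw [u3]
    field_simp

/-- only one vertical is active -/
theorem et3_V {H d V : ℝ} (hH : 3 / 2 ≤ H) (hd : 0 ≤ d) (h : u3 H d V < 77 / 100)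
    (h' : 1 / H ≤ u3 H d V) : |V| < 1 := by
  obtain ⟨_, h2⟩ := et3_u hH h'
  have h3 : H * u3 H d V < H * (77 / 100) := mul_lt_mul_of_pos_left h (by linarith)
  have h4 : V ^ 2 < 1 := by
    nlinarith [sq_nonneg (H - 77 / 50), mul_nonneg hd (by linarith : (0 : ℝ) ≤ H), sq_nonneg d]
  exact (sq_lt_one_iff_abs_lt_one V).1 h4

theorem et3_r1 {H d u : ℝ} (h1 : 3 / 2 ≤ H) (h2 : H < 8 / 5) (hu1 : 1 ≤ H * u)
    (hu2 : (1 / 2 * d + H) ^ 2 ≤ 4 * (H * u)) (hu : u < 77 / 100) :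
    wt u ≤ max 0 (1 / 3 * (131 / 100 - d)) := by
  have e : 14 / 25 < u := by
    by_contra hc
    push Not at hc
    nlinarith
  have k1 : 77 / 100 - u ≤ 1 / 3 * (131 / 100 - d) := by
    by_contra hc
    push Not at hc
    have h3 : H * u < H * (77 / 100 - 1 / 3 * (131 / 100 - d)) :=
      mul_lt_mul_of_pos_left (by linarith) (by linarith)
    nlinarith [sq_nonneg (d / 2 - 1 / 3 * H), mul_nonneg (by linarith : (0 : ℝ) ≤ H)
      (by linarith : (0 : ℝ) ≤ H - 3 / 2)]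
  exact et3_wt_le hu k1 (by linarith)

theorem et3_r2 {H d u : ℝ} (h1 : 8 / 5 ≤ H) (h2 : H < 17 / 10) (hu1 : 1 ≤ H * u)
    (hu2 : (1 / 2 * d + H) ^ 2 ≤ 4 * (H * u)) (hu : u < 77 / 100) :
    wt u ≤ max 0 (13 / 40 * (5 / 4 - d)) := by
  have e : 14 / 25 < u := by
    by_contra hc
    push Not at hc
    nlinarith
  have k1 : 77 / 100 - u ≤ 13 / 40 * (5 / 4 - d) := by
    by_contra hc
    push Not at hc
    have h3 : H * u < H * (77 / 100 - 13 / 40 * (5 / 4 - d)) :=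
      mul_lt_mul_of_pos_left (by linarith) (by linarith)
    nlinarith [sq_nonneg (d / 2 - 3 / 10 * H), mul_nonneg (by linarith : (0 : ℝ) ≤ H)
      (by linarith : (0 : ℝ) ≤ H - 8 / 5)]
  exact et3_wt_le hu k1 (by linarith)

theorem et3_r3 {H d u : ℝ} (h1 : 17 / 10 ≤ H) (h2 : H < 89 / 50) (hu1 : 1 ≤ H * u)
    (hu2 : (1 / 2 * d + H) ^ 2 ≤ 4 * (H * u)) (hu : u < 77 / 100) :
    wt u ≤ max 0 (61 / 200 * (6 / 5 - d)) := by
  have e : 14 / 25 < u := by
    by_contra hc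
    push Not at hc
    nlinarith
  have k1 : 77 / 100 - u ≤ 61 / 200 * (6 / 5 - d) := by
    by_contra hc
    push Not at hc
    have h3 : H * u < H * (77 / 100 - 61 / 200 * (6 / 5 - d)) :=
      mul_lt_mul_of_pos_left (by linarith) (by linarith)
    nlinarith [sq_nonneg (d / 2 - 11 / 50 * H), mul_nonneg (by linarith : (0 : ℝ) ≤ H)
      (by linarith : (0 : ℝ) ≤ H - 17 / 10)]
  exact et3_wt_le hu k1 (by linarith)

theorem et3_r4 {H d u : ℝ} (h1 : 89 / 50 ≤ H) (hu1 : 1 ≤ H * u)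
    (hu2 : (1 / 2 * d + H) ^ 2 ≤ 4 * (H * u)) (hu : u < 77 / 100) :
    wt u ≤ max 0 (313 / 1000 * (113 / 100 - d)) := by
  have k1 : 77 / 100 - u ≤ 313 / 1000 * (113 / 100 - d) := by
    by_contra hc
    push Not at hc
    have h3 : H * u < H * (77 / 100 - 313 / 1000 * (113 / 100 - d)) :=
      mul_lt_mul_of_pos_left (by linarith) (by linarith)
    nlinarith [sq_nonneg (d / 2 - 63 / 250 * H), mul_nonneg (by linarith : (0 : ℝ) ≤ H)
      (by linarith : (0 : ℝ) ≤ H - 89 / 50)]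
  have k2 : 133 / 100 - 2 * u ≤ 313 / 1000 * (113 / 100 - d) := by
    by_contra hc
    push Not at hc
    have h3 : H * (2 * u) < H * (133 / 100 - 313 / 1000 * (113 / 100 - d)) :=
      mul_lt_mul_of_pos_left (by linarith) (by linarith)
    nlinarith [sq_nonneg (d / 2 - 33 / 280 * H), sq_nonneg (H - 177 / 100)]
  exact et3_wt_le hu k1 k2

theorem et3_r5 {H d u : ℝ} (h1 : 19 / 10 ≤ H) (hu1 : 1 ≤ H * u)
    (hu2 : (1 / 2 * d + H) ^ 2 ≤ 4 * (H * u)) (hu : u < 77 / 100) :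
    wt u ≤ max 0 (83 / 250 * (26 / 25 - d)) := by
  have hd : d ≤ 26 / 25 := by
    by_contra hc
    push Not at hc
    have h3 : H * u < H * (77 / 100) := mul_lt_mul_of_pos_left hu (by linarith)
    nlinarith
  have k1 : 77 / 100 - u ≤ 83 / 250 * (26 / 25 - d) := by
    by_contra hc
    push Not at hc
    have h3 : H * u < H * (77 / 100 - 83 / 250 * (26 / 25 - d)) :=
      mul_lt_mul_of_pos_left (by linarith) (by linarith)
    nlinarith [sq_nonneg (d - 26 / 25), mul_nonneg (by linarith : (0 : ℝ) ≤ 26 / 25 - d)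
      (by linarith : (0 : ℝ) ≤ H - 19 / 10), mul_nonneg (by linarith : (0 : ℝ) ≤ H - 19 / 10)
      (by linarith : (0 : ℝ) ≤ H - 19 / 10)]
  have k2 : 133 / 100 - 2 * u ≤ 83 / 250 * (26 / 25 - d) := by
    by_contra hc
    push Not at hc
    have h3 : H * (2 * u) < H * (133 / 100 - 83 / 250 * (26 / 25 - d)) :=
      mul_lt_mul_of_pos_left (by linarith) (by linarith)
    nlinarith [sq_nonneg (d / 2 - 17 / 315 * H), mul_nonneg (by linarith : (0 : ℝ) ≤ H - 19 / 10)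
      (by linarith : (0 : ℝ) ≤ H - 19 / 10)]
  exact et3_wt_le hu k1 k2

theorem et3_r6 {H d u : ℝ} (h1 : 2 ≤ H) (hu1 : 1 ≤ H * u)
    (hu2 : (1 / 2 * d + H) ^ 2 ≤ 4 * (H * u)) (hu : u < 77 / 100) :
    wt u ≤ max 0 (67 / 200 * (1 - d)) := by
  have k1 : 77 / 100 - u ≤ 67 / 200 * (1 - d) := by
    by_contra hc
    push Not at hc
    have h3 : H * u < H * (77 / 100 - 67 / 200 * (1 - d)) :=
      mul_lt_mul_of_pos_left (by linarith) (by linarith)
    nlinarith [sq_nonneg (d / 2 - 17 / 50 * H), mul_nonneg (by linarith : (0 : ℝ) ≤ H)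
      (by linarith : (0 : ℝ) ≤ H - 2)]
  have k2 : 133 / 100 - 2 * u ≤ 67 / 200 * (1 - d) := by
    by_contra hc
    push Not at hc
    have h3 : H * (2 * u) < H * (133 / 100 - 67 / 200 * (1 - d)) :=
      mul_lt_mul_of_pos_left (by linarith) (by linarith)
    nlinarith [sq_nonneg d, mul_nonneg (by linarith : (0 : ℝ) ≤ H - 2)
      (by linarith : (0 : ℝ) ≤ H - 2)]
  exact et3_wt_le hu k1 k2

theorem et3_r7 {H d u : ℝ} (h1 : 12 / 5 ≤ H) (hd : 0 ≤ d)
    (hu2 : (1 / 2 * d + H) ^ 2 ≤ 4 * (H * u)) (hu : u < 77 / 100) :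
    wt u ≤ max 0 (9 / 50 * (1 - d)) := by
  have hHd : 0 ≤ H * d := mul_nonneg (by linarith) hd
  have hHH : 0 ≤ H * (H - 12 / 5) := mul_nonneg (by linarith) (by linarith)
  have k1 : 77 / 100 - u ≤ 9 / 50 * (1 - d) := by
    by_contra hc
    push Not at hc
    have h3 : H * u < H * (77 / 100 - 9 / 50 * (1 - d)) :=
      mul_lt_mul_of_pos_left (by linarith) (by linarith)
    nlinarith [sq_nonneg d]
  have k2 : 133 / 100 - 2 * u ≤ 9 / 50 * (1 - d) := by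
    by_contra hc
    push Not at hc
    have h3 : H * (2 * u) < H * (133 / 100 - 9 / 50 * (1 - d)) :=
      mul_lt_mul_of_pos_left (by linarith) (by linarith)
    nlinarith [sq_nonneg d]
  exact et3_wt_le hu k1 k2

theorem et3_r8 {H d u : ℝ} (h1 : 31 / 10 ≤ H) (hd : 0 ≤ d)
    (hu2 : (1 / 2 * d + H) ^ 2 ≤ 4 * (H * u)) : 77 / 100 ≤ u := by
  by_contra hc
  push Not at hc
  have h3 : H * u < H * (77 / 100) := mul_lt_mul_of_pos_left hc (by linarith)
  nlinarith [mul_nonneg (by linarith : (0 : ℝ) ≤ H) hd, sq_nonneg d,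
    mul_nonneg (by linarith : (0 : ℝ) ≤ H) (by linarith : (0 : ℝ) ≤ H - 31 / 10)]

/-- summation of the one-point bound -/
theorem et3_sum (hK : ST_EKER) {H : ℝ} {z : Fin 8 → ℝ} {v : (Fin 8 → ℤ) → ℝ} (hH : 3 / 2 ≤ H)
    {G : Finset ((Fin 8 → ℤ) × ℤ)} (hG : ∀ g ∈ G, GA g.1)
    (hu : ∀ g ∈ G, 1 / H ≤ u3 H (sq8 z g.1) (v g.1 + 2 * g.2)) {c β B : ℝ} (hc : 0 ≤ c)
    (hb1 : 1 ≤ β) (hb2 : β ≤ 25 / 16) (hB : c * (16 * β - 15) ≤ B)
    (h : ∀ d u : ℝ, 0 ≤ d → 1 ≤ H * u → (1 / 2 * d + H) ^ 2 ≤ 4 * (H * u) → u < 77 / 100 →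
      wt u ≤ max 0 (c * (β - d))) :
    ∑ g ∈ G, wt (u3 H (sq8 z g.1) (v g.1 + 2 * g.2)) ≤ B := by
  classical
  have h1 : ∑ g ∈ G, wt (u3 H (sq8 z g.1) (v g.1 + 2 * g.2)) =
      ∑ g ∈ G.filter (fun g => 0 < wt (u3 H (sq8 z g.1) (v g.1 + 2 * g.2))),
        wt (u3 H (sq8 z g.1) (v g.1 + 2 * g.2)) := by
    rw [Finset.sum_filter]
    refine Finset.sum_congr rfl fun g _ => ?_
    split_ifs with h
    · rfl
    · exact le_antisymm (not_lt.1 h) (et3_wt_nonneg _)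
  rw [h1]
  obtain ⟨P, hP⟩ : ∃ P, P = G.filter (fun g => 0 < wt (u3 H (sq8 z g.1) (v g.1 + 2 * g.2))) :=
    ⟨_, rfl⟩
  rw [← hP]
  have hPG : ∀ g ∈ P, g ∈ G := fun g hg => by
    rw [hP] at hg
    exact (Finset.mem_filter.1 hg).1
  have hPu : ∀ g ∈ P, u3 H (sq8 z g.1) (v g.1 + 2 * g.2) < 77 / 100 := fun g hg => by
    rw [hP] at hg
    exact et3_lt_of_wt_pos (Finset.mem_filter.1 hg).2
  have hinj : Set.InjOn (fun g : (Fin 8 → ℤ) × ℤ => g.1) P := by
    intro g hg g' hg' hgg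
    have a1 := et3_V hH (et3_sq8_nonneg z g.1) (hPu g hg) (hu g (hPG g hg))
    have a2 := et3_V hH (et3_sq8_nonneg z g'.1) (hPu g' hg') (hu g' (hPG g' hg'))
    have hgg1 : g.1 = g'.1 := hgg
    rw [hgg1, abs_lt] at a1
    rw [abs_lt] at a2
    have : g.2 = g'.2 := by
      have b1 : (g.2 : ℝ) - g'.2 < 1 := by linarith [a1.2, a2.1]
      have b2 : -1 < (g.2 : ℝ) - g'.2 := by linarith [a1.1, a2.2]
      have c1 : g.2 - g'.2 < 1 := by exact_mod_cast b1
      have c2 : -1 < g.2 - g'.2 := by exact_mod_cast b2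
      omega
    exact Prod.ext hgg1 this
  calc ∑ g ∈ P, wt (u3 H (sq8 z g.1) (v g.1 + 2 * g.2))
      ≤ ∑ g ∈ P, c * max 0 (β - sq8 z g.1) := by
        refine Finset.sum_le_sum fun g hg => ?_
        obtain ⟨e1, e2⟩ := et3_u hH (hu g (hPG g hg))
        refine le_trans (h _ _ (et3_sq8_nonneg z g.1) e1 ?_ (hPu g hg)) ?_
        · rw [← e2]
          linarith [sq_nonneg (v g.1 + 2 * (g.2 : ℝ))]
        · rw [mul_max_of_nonneg _ _ hc, mul_zero]
    _ = ∑ A ∈ P.image (fun g => g.1), c * max 0 (β - sq8 z A) := by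
        rw [Finset.sum_image hinj]
    _ = c * ∑ A ∈ P.image (fun g => g.1), max 0 (β - sq8 z A) := by
        rw [Finset.mul_sum]
    _ ≤ c * (16 * β - 15) := by
        refine mul_le_mul_of_nonneg_left (hK z _ ?_ β hb1 hb2) hc
        intro b hb
        obtain ⟨g, hg, rfl⟩ := Finset.mem_image.1 hb
        exact hG g (hPG g hg)
    _ ≤ B := hB

theorem st_ET3 (hK : ST_EKER) : ST_ET3 := by
  intro H z v hH G hG hu
  rw [b3]
  split_ifs with c1 c2 c3 c4 c5 c6 c7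
  · exact et3_sum hK hH hG hu (c := 1 / 3) (β := 131 / 100) (by norm_num) (by norm_num)
      (by norm_num) (by norm_num) fun d u hd h1 h2 h3 => et3_r1 hH c1 h1 h2 h3
  · exact et3_sum hK hH hG hu (c := 13 / 40) (β := 5 / 4) (by norm_num) (by norm_num)
      (by norm_num) (by norm_num) fun d u hd h1 h2 h3 => et3_r2 (not_lt.1 c1) c2 h1 h2 h3
  · exact et3_sum hK hH hG hu (c := 61 / 200) (β := 6 / 5) (by norm_num) (by norm_num)
      (by norm_num) (by norm_num) fun d u hd h1 h2 h3 => et3_r3 (not_lt.1 c2) c3 h1 h2 h3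
  · exact et3_sum hK hH hG hu (c := 313 / 1000) (β := 113 / 100) (by norm_num) (by norm_num)
      (by norm_num) (by norm_num) fun d u hd h1 h2 h3 => et3_r4 (not_lt.1 c3) h1 h2 h3
  · exact et3_sum hK hH hG hu (c := 83 / 250) (β := 26 / 25) (by norm_num) (by norm_num)
      (by norm_num) (by norm_num) fun d u hd h1 h2 h3 => et3_r5 (not_lt.1 c4) h1 h2 h3
  · exact et3_sum hK hH hG hu (c := 67 / 200) (β := 1) (by norm_num) (by norm_num)
      (by norm_num) (by norm_num) fun d u hd h1 h2 h3 => et3_r6 (not_lt.1 c5) h1 h2 h3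
  · exact et3_sum hK hH hG hu (c := 9 / 50) (β := 1) (by norm_num) (by norm_num)
      (by norm_num) (by norm_num) fun d u hd h1 h2 h3 => et3_r7 (not_lt.1 c6) hd h2 h3
  · refine le_of_eq (Finset.sum_eq_zero fun g hg => et3_wt_zero ?_)
    obtain ⟨e1, e2⟩ := et3_u hH (hu g hg)
    refine et3_r8 (not_lt.1 c7) (et3_sq8_nonneg z g.1) ?_
    rw [← e2]
    linarith [sq_nonneg (v g.1 + 2 * (g.2 : ℝ))]

end Pool.Agent.Helper19.Un
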